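import Pool.Agent.H4.Fit1

set_option autoImplicit false

open scoped Pointwise

namespace Pool.Agent.Results.MP_c7d465_al.NoBound

open Subgroup Pool.Agent.H4.Fit

/-- The hypercentre: union of the upper central series. -/
def hypercentre (G : Type) [Group G] : Subgroup G := ⨆ i, Subgroup.upperCentralSeries G i

/-- A Sylow system: one Sylow `p`-subgroup for every prime `p`, pairwise permuting. -/
def IsSylowSystem {G : Type} [Group G] (S : ∀ p : Nat.Primes, Sylow p G) : Prop :=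
  ∀ p q, (S p : Set G) * (S q : Set G) = (S q : Set G) * (S p : Set G)

/-- The system normalizer. -/
def sysNorm {G : Type} [Group G] (S : ∀ p : Nat.Primes, Sylow p G) : Subgroup G :=
  ⨅ p, normalizer (S p : Set G)

@[ext] structure E (m : ℕ) where
  l : Fin m → ZMod 3
  z : ZMod 3
  a : Fin m → ZMod 3
  s : (ZMod 3)ˣ

variable {m : ℕ}

instance : Mul (E m) := ⟨fun x y => ⟨x.l + y.l, y.z + x.l ⬝ᵥ y.a + x.z * y.s,
  y.a + (y.s : ZMod 3) • x.a, x.s * y.s⟩⟩
instance : One (E m) := ⟨⟨0, 0, 0, 1⟩⟩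
instance : Inv (E m) := ⟨fun x => ⟨-x.l, (x.l ⬝ᵥ x.a - x.z) * x.s,
  -((x.s : ZMod 3) • x.a), x.s⟩⟩
lemma mul_def (x y : E m) : x * y = ⟨x.l + y.l, y.z + x.l ⬝ᵥ y.a + x.z * y.s,
  y.a + (y.s : ZMod 3) • x.a, x.s * y.s⟩ := rfl
lemma one_def : (1 : E m) = ⟨0, 0, 0, 1⟩ := rfl
lemma inv_def (x : E m) : x⁻¹ = ⟨-x.l, (x.l ⬝ᵥ x.a - x.z) * x.s,
  -((x.s : ZMod 3) • x.a), x.s⟩ := rfl
lemma sq_one (u : (ZMod 3)ˣ) : u * u = 1 := by revert u; decide
lemma sq_one' (u : (ZMod 3)ˣ) : (u : ZMod 3) * u = 1 := by revert u; decide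

instance : Group (E m) := Group.ofLeftAxioms
  (fun x y w => by
    ext <;> simp [mul_def, add_dotProduct, dotProduct_add, dotProduct_smul] <;> ring)
  (fun x => by ext <;> simp [mul_def, one_def])
  (fun x => by
    ext <;> simp [mul_def, one_def, inv_def, mul_assoc, ← mul_assoc (x.s : ZMod 3), sq_one']
    ring)

instance : Finite (E m) :=
  Finite.of_injective (fun x : E m => (x.l, x.z, x.a, x.s)) fun x y h => by
    simp only [Prod.mk.injEq] at h
    exact E.ext h.1 h.2.1 h.2.2.1 h.2.2.2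

def sg : E m →* (ZMod 3)ˣ := ⟨⟨E.s, rfl⟩, fun _ _ => rfl⟩

lemma uu : ∀ a b : (ZMod 3)ˣ, a ≠ 1 → b ≠ 1 → a * b = 1 := by decide
lemma tw : ∀ c : ZMod 3, c + c = 0 → c = 0 := by decide

lemma three (c : ZMod 3) : c + c + c = 0 := by revert c; decide

lemma cube (x : E m) (h : x.s = 1) : x ^ 3 = 1 := by
  rw [pow_succ, pow_two]
  ext
  · simp [mul_def, one_def, three]
  · simp only [mul_def, one_def, h, add_dotProduct, Units.val_one, mul_one]
    linear_combination three x.z + three (x.l ⬝ᵥ x.a)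
  · simp [mul_def, one_def, h, ← add_assoc, three]
  · simp [mul_def, one_def, h]

lemma kerP : IsPGroup 3 (sg : E m →* _).ker := fun x => ⟨1, Subtype.ext (cube _ x.2)⟩

lemma cent (x : E m) (h : ∀ y, x * y = y * x) : x = 1 := by
  have two : ∀ c : ZMod 3, c = -c → c = 0 := by decide
  have h1 := h ⟨0, 0, 0, -1⟩
  have ha : x.a = 0 := funext fun i => two _ (by
    have := congrFun (congrArg E.a h1) i
    simpa [mul_def] using this.symm)
  have hz : x.z = 0 := two _ (by
    have := congrArg E.z h1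
    simpa [mul_def] using this.symm)
  have hs : x.s = 1 := Units.ext (by
    have := congrArg E.z (h ⟨0, 1, 0, 1⟩)
    simpa [mul_def, hz] using this.symm)
  have hl : x.l = 0 := funext fun i => by
    have := congrArg E.z (h ⟨0, 0, Pi.single i 1, 1⟩)
    simpa [mul_def, hz] using this
  exact E.ext hl hz ha hs

theorem result (n : ℕ) : ∃ (G : Type) (_ : Group G), Finite G ∧ Group.IsSolvable G ∧
    ∀ S : Fin n → ∀ p : Nat.Primes, Sylow p G, (∀ i, IsSylowSystem (S i)) →
      hypercentre G ≠ ⨅ i, sysNorm (S i) := by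
  have := Fact.mk Nat.prime_three
  refine ⟨E (n + 1), inferInstance, inferInstance, solv_of_ker sg kerP, fun S _ h => ?_⟩
  have hb : hypercentre (E (n + 1)) = ⊥ := by
    refine iSup_eq_bot.2 fun i => ?_
    induction i with
    | zero => simp
    | succ i ih =>
      rw [eq_bot_iff]
      intro x hx
      rw [Subgroup.mem_upperCentralSeries_succ_iff, ih] at hx
      exact cent x fun y => by
        have := mem_bot.1 (hx y)
        rwa [commutatorElement_eq_one_iff_mul_comm] at this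
  have triv : ∀ (p : Nat.Primes) (P : Sylow p (E (n + 1))), (p : ℕ) ≠ 3 →
      ∀ x ∈ (P : Subgroup (E (n + 1))), x.s = 1 → x = 1 := by
    intro p P hp x hx hs
    have := Fact.mk p.2
    exact disjoint_def.1 (IsPGroup.disjoint_of_ne p 3 hp _ _ P.isPGroup' kerP) hx hs
  have ex : ∀ i, ∃ a, ∀ x ∈ (S i ⟨2, Nat.prime_two⟩ : Subgroup (E (n + 1))), x ≠ 1 → x.a = a := by
    intro i
    by_cases hx : ∃ x ∈ (S i ⟨2, Nat.prime_two⟩ : Subgroup (E (n + 1))), x ≠ 1
    · obtain ⟨x, hx, hx1⟩ := hx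
      refine ⟨x.a, fun y hy hy1 => ?_⟩
      have := triv _ _ (by decide) _ (mul_mem (inv_mem hx) hy)
        (uu x.s y.s (fun h => hx1 (triv _ _ (by decide) _ hx h))
          (fun h => hy1 (triv _ _ (by decide) _ hy h)))
      rw [← inv_mul_eq_one.1 this]
    · push Not at hx
      exact ⟨0, fun y hy hy1 => absurd (hx y hy) hy1⟩
  choose a ha using ex
  obtain ⟨l, hl, hl0⟩ : ∃ l : Fin (n + 1) → ZMod 3, (Matrix.of a).mulVec l = 0 ∧ l ≠ 0 := by
    have := LinearMap.ker_ne_bot_of_finrank_lt (f := (Matrix.of a).mulVecLin) (by simp)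
    exact (Submodule.ne_bot_iff _).1 this
  have hg : (⟨l, 0, 0, 1⟩ : E (n + 1)) ∈ hypercentre (E (n + 1)) := by
    rw [h]
    simp only [sysNorm, mem_iInf]
    intro i p
    have := Fact.mk p.2
    by_cases h3 : (p : ℕ) = 3
    · refine le_normalizer (IsPGroup.le_sylow_of_normal (N := sg.ker) (by rw [h3]; exact kerP) (S i p) rfl)
    refine centralizer_le_normalizer _ (mem_centralizer_iff.2 fun x hx => ?_)
    by_cases hx1 : x = 1
    · simp [hx1]
    have hsq := triv p _ h3 _ (mul_mem hx hx) (sq_one x.s)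
    have h2 : p = ⟨2, Nat.prime_two⟩ := by
      by_contra hne
      obtain ⟨k, hk⟩ := (S i p).isPGroup' ⟨x, hx⟩
      refine hx1 (mem_bot.1 (mem_of_pow_mem (a := (p : ℕ) ^ k) (b := 2) (Nat.Coprime.pow_left _
        ((Nat.coprime_primes p.2 Nat.prime_two).2 fun h => hne (Subtype.ext h)))
        (congrArg Subtype.val hk) (by rw [pow_two]; exact hsq)))
    subst h2
    have hl' : x.l = 0 := funext fun j => tw _ (congrFun (congrArg E.l hsq) j)
    have hd : l ⬝ᵥ x.a = 0 := by
      rw [ha i x hx hx1, dotProduct_comm]; exact congrFun hl i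
    ext <;> simp [mul_def, hl', hd]
  rw [hb] at hg
  exact hl0 (congrArg E.l (mem_bot.1 hg))

end Pool.Agent.Results.MP_c7d465_al.NoBound
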